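import Mathlib
import Pool.Agent.Y576.PR.Prof

/-!
# Complexity profiles: independence of the string and of the condition

The set of the complexity profiles, relative to a condition `w`, of all tuples
`(x, y_1, ..., y_k)` depends only on the number `C(x | w)`: neither on the string `x` nor on the
condition `w`.  The dependence on this number is Lipschitz with the optimal constant one, and the
logarithm is taken of the complexities, not of the lengths.
-/

set_option autoImplicit false

namespace Pool.Agent.Results.MP_7eeb8f_lc.ConditionIndependence

/-- `U` is an optimal conditional decompressor (`U p w` is the output on the program `p` under the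
condition `w`): it is partial recursive and every partial recursive conditional decompressor `V` is
simulated by `U` with a constant overhead in the length of programs. -/
def OptimalConditional (U : List Bool → List Bool →. List Bool) : Prop :=
  Partrec₂ U ∧ ∀ V : List Bool → List Bool →. List Bool, Partrec₂ V →
    ∃ c : ℕ, ∀ p w x : List Bool, x ∈ V p w →
      ∃ q : List Bool, x ∈ U q w ∧ q.length ≤ p.length + c

/-- Conditional Kolmogorov complexity `C(x | w)` with respect to the decompressor `U`; for the empty
condition this is the plain complexity `C(x)` with respect to `U · []`. -/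
noncomputable def condC (U : List Bool → List Bool →. List Bool) (x w : List Bool) : ℕ :=
  sInf {m : ℕ | ∃ p : List Bool, x ∈ U p w ∧ p.length = m}

/-- The subtuple of the `z i` with `i ∈ S`, in increasing order of the indices. -/
def subtuple {k : ℕ} (z : Fin (k + 1) → List Bool) (S : Finset (Fin (k + 1))) :
    List (List Bool) :=
  ((List.finRange (k + 1)).filter (fun i => decide (i ∈ S))).map z

section sanity

open Pool.Agent.Helper760.Kolm Encodable

/-- Sanity check: optimal conditional decompressors exist. -/
theorem exists_optimalConditional :
    ∃ U : List Bool → List Bool →. List Bool, OptimalConditional U := by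
  refine ⟨fun p w => (M p (encode w)).bind fun n => Part.ofOption (decode (α := List Bool) n),
    ?_, ?_⟩
  · exact Partrec.bind (partrec_M.comp Computable.fst (Computable.encode.comp Computable.snd))
      ((Computable.decode.comp Computable.snd).ofOption)
  · intro V hV
    have hV' : Partrec (fun x : List Bool × ℕ =>
        (Part.ofOption (decode (α := List Bool) x.2)).bind fun w => (V x.1 w).map encode) := by
      refine Partrec.bind ((Computable.decode.comp Computable.snd).ofOption) ?_
      exact Partrec.map (hV.comp (Computable.fst.comp Computable.fst) Computable.snd)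
        (Computable.encode.comp Computable.snd).to₂
    obtain ⟨c, hc⟩ := M_opt (fun p y => (Part.ofOption (decode (α := List Bool) y)).bind
      fun w => (V p w).map encode) hV'
    refine ⟨c + 1, fun p w x hx => ⟨List.replicate c true ++ false :: p, ?_, ?_⟩⟩
    · simp only [Part.mem_bind_iff]
      refine ⟨encode x, hc p (encode w) (encode x) ?_, by simp⟩
      simp only [Part.mem_bind_iff]
      exact ⟨w, by simp, Part.mem_map encode hx⟩
    · simp; omega

end sanity

/-- Sanity check: for the empty condition an optimal conditional decompressor is an optimal plain
decompressor. -/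
theorem optimal_plain {U : List Bool → List Bool →. List Bool} (hU : OptimalConditional U) :
    Partrec (fun p => U p []) ∧ ∀ V : List Bool →. List Bool, Partrec V →
      ∃ c : ℕ, ∀ p x : List Bool, x ∈ V p →
        ∃ q : List Bool, x ∈ U q [] ∧ q.length ≤ p.length + c := by
  refine ⟨hU.1.comp Computable.id (Computable.const []), fun V hV => ?_⟩
  obtain ⟨c, hc⟩ := hU.2 (fun p _ => V p) (hV.comp Computable.fst)
  exact ⟨c, fun p x hx => hc p [] x hx⟩

/-- Sanity check: every optimal plain decompressor is the restriction of an optimal conditional
decompressor to the empty condition. -/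
theorem exists_extension (U₀ : List Bool →. List Bool) (hU₀ : Partrec U₀)
    (hopt : ∀ V : List Bool →. List Bool, Partrec V →
      ∃ c : ℕ, ∀ p x : List Bool, x ∈ V p → ∃ q : List Bool, x ∈ U₀ q ∧ q.length ≤ p.length + c) :
    ∃ U : List Bool → List Bool →. List Bool, OptimalConditional U ∧ ∀ p, U p [] = U₀ p := by
  obtain ⟨U₁, h1, h2⟩ := exists_optimalConditional
  refine ⟨fun p w => cond w.isEmpty (U₀ p) (U₁ p w), ⟨?_, ?_⟩, fun p => rfl⟩
  · have hc : Computable (fun x : List Bool × List Bool => x.2.isEmpty) := by
      have h3 : Primrec (fun x : List Bool × List Bool => decide (x.2.length = 0)) :=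
        (Primrec.eq.comp (Primrec.list_length.comp Primrec.snd) (Primrec.const 0)).decide
      refine h3.to_comp.of_eq fun x => ?_
      obtain ⟨a, b⟩ := x
      cases b <;> simp
    exact Partrec.cond hc (hU₀.comp Computable.fst) h1
  · intro V hV
    obtain ⟨c1, hc1⟩ := hopt (fun p => V p []) (hV.comp Computable.id (Computable.const []))
    obtain ⟨c2, hc2⟩ := h2 V hV
    refine ⟨c1 + c2, fun p w x hx => ?_⟩
    cases w with
    | nil =>
      obtain ⟨q, hq, hl⟩ := hc1 p x hx
      exact ⟨q, hq, by omega⟩
    | cons b w =>
      obtain ⟨q, hq, hl⟩ := hc2 p (b :: w) x hx
      exact ⟨q, hq, by omega⟩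

/-- **The set of the complexity profiles, relative to a condition `w`, of the tuples
`(x, y_1, ..., y_k)` depends only on the number `C(x | w)`, and this dependence is Lipschitz with
the constant one.**

For every `k` there is `c` such that for all conditions `w`, `w'`, all strings `x`, `x'` and all
`y_1, ..., y_k` there are `y'_1, ..., y'_k` such that each coordinate of the profile of
`(x, y_1, ..., y_k)` relative to `w` differs from the same coordinate of the profile of
`(x', y'_1, ..., y'_k)` relative to `w'` by at most `|C(x|w) - C(x'|w')| + c log (2 + L)`; here `L` is
the smaller of the numbers `C(x, y_1, ..., y_k | w) + C(x' | w')` and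
`|x| + |x'| + |y_1| + ... + |y_k|`.

For empty conditions and `C(x) = C(x')` this is the affirmative answer to Q1. -/
theorem result (k : ℕ) (U : List Bool → List Bool →. List Bool) (hU : OptimalConditional U)
    (enc : List (List Bool) → List Bool) (henc : Computable enc)
    (hinj : Function.Injective enc) :
    ∃ c : ℝ, ∀ (w w' x x' : List Bool) (y : Fin k → List Bool), ∃ y' : Fin k → List Bool,
    ∀ S : Finset (Fin (k + 1)),
      |(condC U (enc (subtuple (Fin.cons x y) S)) w : ℝ) -
        (condC U (enc (subtuple (Fin.cons x' y') S)) w' : ℝ)| ≤
      |(condC U x w : ℝ) - (condC U x' w' : ℝ)| + c * Real.log (2 +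
        ((min (condC U (enc (subtuple (Fin.cons x y) Finset.univ)) w + condC U x' w')
          (x.length + x'.length + ∑ i, (y i).length) : ℕ) : ℝ)) :=
  Pool.Agent.Y576.PR.main_min k U hU enc henc hinj

end Pool.Agent.Results.MP_7eeb8f_lc.ConditionIndependence
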